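import Pool.Agent.Helper90.MZ.StmtsA

/-!
# MP_79eb7e_lc, full answer: BAS, bases are independent from the models which omit the type
-/

set_option autoImplicit false

namespace Pool.Agent.Helper90.MZ

open Pool.Agent.Helper90.TS

/-- a finite subset of a union lies in a finite subunion -/
theorem bas_fin {α ι : Type} (S : ι → Set α) (B0 : Set α) (hB : B0.Finite) (h : B0 ⊆ ⋃ i, S i) :
    ∃ s : Finset ι, B0 ⊆ ⋃ i ∈ s, S i := by
  classical
  induction B0, hB using Set.Finite.induction_on with
  | empty => exact ⟨∅, Set.empty_subset _⟩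
  | @insert a T _ _ ih =>
    obtain ⟨s, hs⟩ := ih ((Set.subset_insert a T).trans h)
    obtain ⟨i, hi⟩ := Set.mem_iUnion.1 (h (Set.mem_insert a T))
    refine ⟨insert i s, ?_⟩
    rintro x (rfl | hx)
    · exact Set.mem_biUnion (Finset.mem_insert_self i s) hi
    · obtain ⟨j, hj, hj2⟩ := Set.mem_iUnion₂.1 (hs hx)
      exact Set.mem_biUnion (Finset.mem_insert_of_mem hj) hj2

theorem st_BAS (hS : ST_SEM) (hR : ST_RLB) : ST_BAS := by
  classical
  intro V G _ _ X p B N κ _ y hp hN hpN hBN hOm hy hInd
  have hNc : N.Countable := hN.1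
  have hBc : B.Countable := hNc.mono hBN
  obtain ⟨A, hA⟩ : ∃ A : Set V, A = p.A ∪ B := ⟨_, rfl⟩
  have hAN : A ⊆ N := by
    rw [hA]
    exact Set.union_subset hpN hBN
  have hAc : A.Countable := hNc.mono hAN
  rw [← hA] at hInd ⊢
  have hycnt : ∀ i, (Set.range (y i)).Countable := fun i => Set.countable_range _
  have hPN : Pts p.D N ⊆ N := by
    rintro v ⟨x, -, h1, h2⟩
    exact h1 h2
  have hPc : (Pts p.D N).Countable := hNc.mono hPN
  have hYc : ∀ s : Finset κ, (⋃ j ∈ s, Set.range (y j)).Countable := fun s =>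
    Set.Countable.biUnion s.countable_toSet (fun i _ => hycnt i)
  -- one new element against a finite set of points
  have key : ∀ (s : Finset κ) (i : κ), i ∉ s → ∀ T : Finset {x : Fin 1 → V // x ∈ p.D ∧
      Set.range x ⊆ N}, SI X (A ∪ ⋃ j ∈ s, Set.range (y j)) (Set.range (y i))
        (⋃ x ∈ T, Set.range x.1) := by
    intro s i hi T
    obtain ⟨Ys, hYs⟩ : ∃ Ys : Set V, Ys = ⋃ j ∈ s, Set.range (y j) := ⟨_, rfl⟩
    have hYsc : Ys.Countable := by
      rw [hYs]
      exact hYc s
    rw [← hYs]
    have h0 : SI X A (Set.range (y i)) Ys := by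
      have h := hInd {i} (s : Set κ) (by
        rw [Set.disjoint_singleton_left]
        exact_mod_cast hi)
      rw [Set.biUnion_singleton] at h
      rw [hYs]
      exact_mod_cast h
    induction T using Finset.induction_on with
    | empty =>
      have e : (⋃ x ∈ (∅ : Finset {x : Fin 1 → V // x ∈ p.D ∧ Set.range x ⊆ N}),
          Set.range x.1) = (∅ : Set V) := by
        ext v
        constructor
        · intro hv
          obtain ⟨x, hx, -⟩ := Set.mem_iUnion₂.1 hv
          exact absurd hx (Finset.notMem_empty _)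
        · intro hv
          exact absurd hv (Set.notMem_empty _)
      rw [e]
      exact si_empty_right
    | @insert x T hxT ih =>
      obtain ⟨T0, hT0⟩ : ∃ T0 : Set V, T0 = ⋃ x ∈ T, Set.range x.1 := ⟨_, rfl⟩
      have hT0c : T0.Countable := by
        rw [hT0]
        exact Set.Countable.biUnion T.countable_toSet (fun _ _ => Set.countable_range _)
      rw [Finset.set_biUnion_insert, Set.union_comm (Set.range x.1), ← hT0]
      rw [← hT0] at ih
      refine si_trans (hAc.union hYsc) (hycnt i) hT0c (Set.countable_range _) ih ?_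
      have h1 : SI X (p.A ∪ B) (Set.range (y i)) (Ys ∪ T0) := by
        rw [← hA]
        exact si_trans hAc (hycnt i) hYsc hT0c h0 ih
      have h2 : Rl X p (B ∪ (Ys ∪ T0)) (y i) :=
        (hR V G X p hp B hBc).2.2.2.1 (y i) (Ys ∪ T0) (hYsc.union hT0c) (hy i) h1
      have e : A ∪ Ys ∪ T0 = p.A ∪ (B ∪ (Ys ∪ T0)) := by
        rw [hA, Set.union_assoc, Set.union_assoc]
      rw [e]
      rcases hp.reg (B ∪ (Ys ∪ T0)) (hBc.union (hYsc.union hT0c)) x.1 x.2.1 with h3 | h3
      · exfalso
        refine hOm x.1 x.2.2 ((hR V G X p hp (B ∪ (Ys ∪ T0))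
          (hBc.union (hYsc.union hT0c))).2.2.1 x.1 h3 B ?_)
        exact Set.subset_union_left.trans Set.subset_union_right
      · exact h3 (y i) h2
  -- one new element against all points
  have key2 : ∀ (s : Finset κ) (i : κ), i ∉ s →
      SI X (A ∪ ⋃ j ∈ s, Set.range (y j)) (Set.range (y i)) (Pts p.D N) := by
    intro s i hi
    refine si_finite (hAc.union (hYc s)) (hycnt i) hPc ?_
    intro B0 C0 hB0 hC0 _ hC0f
    have h1 : C0 ⊆ ⋃ x : {x : Fin 1 → V // x ∈ p.D ∧ Set.range x ⊆ N}, Set.range x.1 := by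
      intro v hv
      obtain ⟨x, hx1, hx2, hx3⟩ := hC0 hv
      exact Set.mem_iUnion.2 ⟨⟨x, hx1, hx2⟩, hx3⟩
    obtain ⟨T, hT⟩ := bas_fin _ C0 hC0f h1
    exact si_left hB0 (si_right (hAc.union (hYc s)) (hycnt i)
      (Set.Countable.biUnion T.countable_toSet (fun _ _ => Set.countable_range _)) hT
      (key s i hi T))
  have key3 : ∀ s : Finset κ, SI X A (⋃ j ∈ s, Set.range (y j)) (Pts p.D N) := by
    intro s
    induction s using Finset.induction_on with
    | empty =>
      have e : (⋃ j ∈ (∅ : Finset κ), Set.range (y j)) = (∅ : Set V) := by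
        ext v
        constructor
        · intro hv
          obtain ⟨x, hx, -⟩ := Set.mem_iUnion₂.1 hv
          exact absurd hx (Finset.notMem_empty _)
        · intro hv
          exact absurd hv (Set.notMem_empty _)
      rw [e]
      exact si_empty_left
    | @insert i s hi ih =>
      rw [Finset.set_biUnion_insert, Set.union_comm (Set.range (y i))]
      exact si_transl hAc (hYc s) hPc (hycnt i) ih (key2 s i hi)
  have hOv : X.Ov A p.D := by
    rw [hA]
    exact ov_mono X Set.subset_union_left hp.ov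
  have key4 : ∀ s : Finset κ, SI X A (⋃ j ∈ s, Set.range (y j)) N := by
    intro s
    have h1 := (hS V G X A N p.D hN hAN hOv s.card (fun j => y (s.equivFin.symm j))
      (fun j => (hR V G X p hp B hBc).2.2.2.2.2.2.1 _ (hy _))).1
    have e : (⋃ j : Fin s.card, Set.range (y (s.equivFin.symm j))) =
        ⋃ j ∈ s, Set.range (y j) := by
      ext v
      constructor
      · intro hv
        obtain ⟨j, hj⟩ := Set.mem_iUnion.1 hv
        exact Set.mem_biUnion (s.equivFin.symm j).2 hj
      · intro hv
        obtain ⟨i, hi, hi2⟩ := Set.mem_iUnion₂.1 hv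
        refine Set.mem_iUnion.2 ⟨s.equivFin ⟨i, hi⟩, ?_⟩
        rw [Equiv.symm_apply_apply]
        exact hi2
    rw [e] at h1
    exact si_right hAc (hYc s) (hPc.union hNc) Set.subset_union_right
      (si_trans hAc (hYc s) hPc hNc (key3 s) h1)
  refine si_finite hAc (Set.countable_iUnion hycnt) hNc ?_
  intro B0 C0 hB0 hC0 hB0f _
  obtain ⟨s, hs⟩ := bas_fin _ B0 hB0f hB0
  exact si_left hs (si_right hAc (hYc s) hNc hC0 (key4 s))

end Pool.Agent.Helper90.MZ
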