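import Pool.Agent.Helper90.MZ.StmtsA

/-!
# MP_79eb7e_lc, full answer: BNI, boundedness is a class property
-/

set_option autoImplicit false

namespace Pool.Agent.Helper90.MZ

open Pool.Agent.Helper90.TS

/-- local character with a given finite set inside the base -/
theorem bni_loc {V G : Type} [Group G] [MulAction G V] (X : Ctx V G) (N F : Set V) {ι : Type}
    [Finite ι] (b : ι → V) (hN : N.Countable) (hF : F ⊆ N) (hF2 : F.Finite) :
    ∃ F1 : Set V, F ⊆ F1 ∧ F1 ⊆ N ∧ F1.Finite ∧ SI X F1 (Set.range b) N := by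
  obtain ⟨A0, h1, h2, h3⟩ := a_rkl V G X N hN ι b
  refine ⟨A0 ∪ F, Set.subset_union_right, Set.union_subset h1 hF, h2.union hF2, ?_⟩
  have h4 : SI X A0 (Set.range b) N := by
    rw [← rk_si h2.countable hN, Set.union_eq_self_of_subset_left h1, h3]
  exact si_up h2.countable (Set.countable_range b) hN h4 Set.subset_union_left
    (Set.union_subset_union_right _ hF)

theorem st_BNI (hM : ST_MDLB) (hP : ST_PRIM) (hU : ST_USEV) (hW : ST_NWO) (hL : ST_SRL)
    (hR : ST_RLB) : ST_BNI := by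
  intro V G _ _ X q q' N hq hq' hqf hqf' hN hqN hqN' hNO hB
  obtain ⟨F, hF1, hF2, hF3⟩ := hB
  have hNc : N.Countable := hN.1
  -- enlarge the finite set
  obtain ⟨F0, hF0⟩ : ∃ F0 : Set V, F0 = F ∪ (q.A ∪ q'.A) := ⟨_, rfl⟩
  have hF0f : F0.Finite := by
    rw [hF0]
    exact hF1.union (hqf.union hqf')
  have hF0N : F0 ⊆ N := by
    rw [hF0]
    exact Set.union_subset hF2 (Set.union_subset hqN hqN')
  have hFF0 : F ⊆ F0 := by
    rw [hF0]
    exact Set.subset_union_left
  have hqF0 : q.A ⊆ F0 := by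
    rw [hF0]
    exact Set.subset_union_left.trans Set.subset_union_right
  have hqF0' : q'.A ⊆ F0 := by
    rw [hF0]
    exact Set.subset_union_right.trans Set.subset_union_right
  have hOm : Om X q' F0 N := by
    intro y hy hR0
    exact hF3 y hy ((hR V G X q' hq' F0 hF0f.countable).2.2.1 y hR0 F
      (hFF0.trans Set.subset_union_right))
  by_contra hnB
  obtain ⟨y', hy'⟩ := (hR V G X q' hq' N hNc).1
  obtain ⟨N1, hN1, hN1s, -⟩ := (hM V G X).2.1 ∅ ∅ (N ∪ Set.range y') (Set.empty_subset _)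
    (hNc.union (Set.countable_range _)) Set.countable_empty si_empty_right
  obtain ⟨N', hN'N1, hAt⟩ := hP V G X (N ∪ Set.range y') N1 hN1 hN1s
  obtain ⟨y, hyN', hy⟩ := hW V G X q q' N N' y' hq hq' hNO hN hqN hqN' hy' hAt.1
    (Set.subset_union_left.trans hAt.2.1) (Set.subset_union_right.trans hAt.2.1)
  have hcy : (Set.range y).Countable := Set.countable_range y
  have hcy' : (Set.range y').Countable := Set.countable_range y'
  -- y and y' are dependent over N
  have hdep : ¬ SI X N (Set.range y) (Set.range y') := by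
    intro h
    have h2 := hU V G X N (Set.range y') hN hcy' (Fin 1) y (hAt.2.2 1 y hyN') h
    exact (hR V G X q hq N hNc).2.2.2.2.2.2.2.1 y hy hN hqN h2
  -- finite base
  obtain ⟨F1, hF01, hF1N, hF1f, hsi⟩ := bni_loc X N F0 (Sum.elim y y') hNc hF0N hF0f
  have hF1c : F1.Countable := hF1f.countable
  rw [Set.Sum.elim_range] at hsi
  have hdep1 : ¬ SI X F1 (Set.range y) (Set.range y') := by
    intro h
    rw [Set.union_comm] at hsi
    have h1 := (si_unionl hF1c hcy' hNc hcy).1 hsi
    have h2 := si_trans hF1c hcy hcy' hNc h h1.2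
    have h3 := si_up (A' := N) hF1c hcy (hcy'.union hNc) h2 hF1N
      (Set.subset_union_right.trans Set.subset_union_right)
    exact hdep (si_right hNc hcy (hcy'.union hNc) Set.subset_union_left h3)
  -- q is unbounded
  have hnOm : ¬ Om X q F1 N := fun h => hnB ⟨F1, hF1f, hF1N, h⟩
  unfold Om at hnOm
  push Not at hnOm
  obtain ⟨y1, hy1N, hy1⟩ := hnOm
  have hyF1 : Rl X q F1 y := (hR V G X q hq N hNc).2.2.1 y hy F1
    (hF1N.trans Set.subset_union_right)
  obtain ⟨σ, hσ, hσy⟩ := (hR V G X q hq F1 hF1c).2.1 y y1 hyF1 hy1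
  have hσF1 : σ ∈ Fx G F1 := (fx_union.1 hσ).2
  have hy2 : Rl X q' F1 (σ • y') := by
    refine (hR V G X q' hq' F1 hF1c).2.2.2.2.2.1 y' (σ • y') ?_ ⟨σ, ?_, rfl⟩
    · exact (hR V G X q' hq' N hNc).2.2.1 y' hy' F1 (hF1N.trans Set.subset_union_right)
    · rw [Set.union_eq_self_of_subset_left (hqF0'.trans hF01)]
      exact hσF1
  have hy3 : Rl X q' F0 (σ • y') := (hR V G X q' hq' F1 hF1c).2.2.1 (σ • y') hy2 F0
    (hF01.trans Set.subset_union_right)
  have hy4 : Rl X q' N (σ • y') := hL V G X q' F0 N hq' hN hqN' hF0N hOm (σ • y') hy3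
  have h5 : SI X F1 (Set.range (σ • y')) N :=
    si_up (hqf'.countable) (Set.countable_range _) hNc hy4.2 (hqF0'.trans hF01)
      (hF1N.trans Set.subset_union_right)
  have h6 : SI X F1 (Set.range (σ • y')) (Set.range (σ • y)) := by
    rw [hσy]
    exact si_right hF1c (Set.countable_range _) hNc hy1N h5
  rw [← tr_range, ← tr_range, si_fx hF1c hcy' hcy hσF1] at h6
  exact hdep1 (si_symm hF1c hcy' hcy h6)

end Pool.Agent.Helper90.MZ
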